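import Pool.Agent.Helper74.GP.Top
import Pool.Agent.Helper13.PC.Core8

/-!
# GPOLY core: all coefficients
-/

set_option autoImplicit false

namespace Pool.Agent.Helper74.GP

open Polynomial EVC Pool.Agent.Helper10.PC Pool.Agent.Helper2.PC

variable {b κ ε E T R : ℝ} {L : ℕ} {P : ℝ[X]}

open Classical in
theorem cntG (hA : AdmP b κ ε E) (hG : AdmG κ T R) (h : HG b κ ε E T R L P) {r : ℝ} (hr : 0 < r) (δ : ℝ)
    (hδ : 0 < δ) (hδ4 : δ ≤ 1 / 4) :
    (((Z P).filter (fun ρ => ‖(r : ℂ) - ρ‖ ≤ δ * r)).card : ℝ) ≤ 4 * E + L * √r * δ ^ 2 := by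
  have h1 := near_cnt hA.hκ.le hG.hTR h (zero_le_one.trans hA.hE) hr hδ hδ4
  exact h1

/-- existence of the radius with given mean -/
theorem exists_rG (hA : AdmP b κ ε E) (hG : AdmG κ T R) (h : HG b κ ε E T R L P) {k : ℕ} {S : ℝ}
    (hS : 0 < S) (hSL : S ≤ L) (hm : mean P ((S / L) ^ 2) ≤ k)
    (hk2 : (k : ℝ) + cc κ R ^ 2 / (32 * T ^ 2) * P.natDegree < P.natDegree) :
    ∃ r : ℝ, 0 < r ∧ r ≤ R ∧ S ≤ L * √r ∧ mean P r = k := by
  have hL : (0 : ℝ) < L := hS.trans_le hSL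
  have hR := hG.hR
  obtain ⟨r₀, hr₀⟩ : ∃ r₀, r₀ = (S / L) ^ 2 := ⟨_, rfl⟩
  have hr₀p : 0 < r₀ := by rw [hr₀]; positivity
  have hr₀1 : r₀ ≤ 1 := by
    rw [hr₀]
    exact pow_le_one₀ (by positivity) ((div_le_one hL).2 hSL)
  have hsq : (L : ℝ) * √r₀ = S := by
    rw [hr₀, Real.sqrt_sq (by positivity)]
    field_simp
  rw [← hr₀] at hm
  have h6 := mean_R hA hG h
  have hk3 : (k : ℝ) ∈ Set.Icc (mean P r₀) (mean P R) := ⟨hm, by linarith⟩
  obtain ⟨r, hr, hrk⟩ := intermediate_value_Icc (by linarith : r₀ ≤ R)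
    (Pool.Agent.Helper13.PC.mean_cont h.toNice r₀ R hr₀p) hk3
  refine ⟨r, hr₀p.trans_le hr.1, hr.2, ?_, hrk⟩
  rw [← hsq]
  exact mul_le_mul_of_nonneg_left (Real.sqrt_le_sqrt hr.1) hL.le

/-- **Low coefficients.** -/
theorem lowG (hA : AdmP b κ ε E) (hG : AdmG κ T R) (hP : HG b κ ε E T R L P) (hEL : 10 ^ 13 * E ≤ L * √ε) {k : ℕ}
    (hk : 1 ≤ k) (hkL : 10 ^ 13 * k ≤ L * √ε) : P.coeff (k - 1) * P.coeff (k + 1) ≤ P.coeff k ^ 2 := by
  have hR := hG.hR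
  exact Pool.Agent.Helper13.PC.lowP hA.hE hA.hε hA.hε1 hP.toNice hP.near
    (fun r h1 h2 => hP.lo r h1 (h2.trans hR)) (fun r h1 h2 => hP.eval_le h1 (h2.trans hR)) hEL hk hkL

/-- **The high range**: no condition on `L`. -/
theorem highG (hA : AdmP b κ ε E) (hG : AdmG κ T R) (hE1 : 1 ≤ κ * b * Real.exp E)
    (h : HG b κ ε E T R L P) {k : ℕ} (hk : 10 ^ 19 * E ≤ k * (κ ^ 3 * b ^ 2)) :
    P.coeff (k - 1) * P.coeff (k + 1) ≤ P.coeff k ^ 2 := by
  classical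
  have hb := hA.hb
  have hb1 := hA.hb1
  have hκ := hA.hκ
  have hκ1 := hA.hκ1
  have hE := hA.hE
  have hR := hG.hR
  have hL0 : (0 : ℝ) ≤ L := Nat.cast_nonneg L
  obtain ⟨q, hq⟩ : ∃ q, q = κ ^ 3 * b ^ 2 := ⟨_, rfl⟩
  have hq0 : 0 < q := by rw [hq]; positivity
  have hq1 : q ≤ 1 := by
    rw [hq]
    exact mul_le_one₀ (pow_le_one₀ hκ.le hκ1) (by positivity) (pow_le_one₀ hb.le hb1)
  have hqb : q ≤ b := by
    rw [hq]
    calc κ ^ 3 * b ^ 2 ≤ 1 * b ^ 2 :=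
          mul_le_mul_of_nonneg_right (pow_le_one₀ hκ.le hκ1) (by positivity)
      _ = b * b := by ring
      _ ≤ b * 1 := mul_le_mul_of_nonneg_left hb1 hb.le
      _ = b := mul_one b
  rw [← hq] at hk
  obtain ⟨S, hS⟩ : ∃ S, S = 10 ^ 17 * E / q := ⟨_, rfl⟩
  have hSq : S * q = 10 ^ 17 * E := by
    rw [hS]
    field_simp
  have hS0 : 0 < S := by rw [hS]; positivity
  have hkS : 100 * S ≤ k := by
    have h1 : 100 * S * q ≤ k * q := by
      calc 100 * S * q = 100 * (S * q) := by ring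
        _ = 10 ^ 19 * E := by rw [hSq]; ring
        _ ≤ k * q := hk
    exact le_of_mul_le_mul_right h1 hq0
  have hSE2 : 100 * E / b ≤ S := by
    rw [div_le_iff₀ hb]
    have h1 : S * q ≤ S * b := mul_le_mul_of_nonneg_left hqb hS0.le
    have h2 : 100 * E ≤ 10 ^ 17 * E := mul_le_mul_of_nonneg_right (by norm_num) (by linarith)
    linarith
  have hk1 : 1 ≤ k := by
    rw [Nat.one_le_iff_ne_zero]
    rintro rfl
    rw [Nat.cast_zero] at hkS
    linarith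
  -- trivial above the degree
  rcases Nat.lt_or_ge P.natDegree (k + 1) with hkd | hkd
  · rw [P.coeff_eq_zero_of_natDegree_lt hkd, mul_zero]
    positivity
  have hkdR : (k : ℝ) + 1 ≤ P.natDegree := by exact_mod_cast hkd
  have hdeg : (2 * P.natDegree : ℝ) ≤ L := by exact_mod_cast h.deg
  have hSL1 : S ≤ L := by linarith
  have hSL2 : S ≤ L * √R := by
    have h1 : (1 : ℝ) ≤ √R := by
      rw [Real.one_le_sqrt]
      linarith
    calc S ≤ L * 1 := by linarith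
      _ ≤ L * √R := mul_le_mul_of_nonneg_left h1 hL0
  have hV := var8 hA (by linarith) h (by linarith : 0 < R) le_rfl (cntG hA hG h (by linarith)) (by
    rw [← hq, ← hSq]
    exact mul_le_mul_of_nonneg_right hSL2 hq0.le)
  by_cases hk2 : (P.natDegree : ℝ) ≤ k + cc κ R ^ 2 / (32 * T ^ 2) * P.natDegree
  · exact top hA hG h hV k hk2
  push Not at hk2
  have hL' : (0 : ℝ) < L := hS0.trans_le hSL1
  have hr0 : 0 < (S / L) ^ 2 := by positivity
  have hm : mean P ((S / L) ^ 2) ≤ k := by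
    have h1 := mean_le_of hA (by linarith) h hr0 (cntG hA hG h hr0)
    rw [Real.sqrt_sq (by positivity)] at h1
    have h2 : (L : ℝ) * (S / L) = S := by field_simp
    rw [h2] at h1
    linarith
  obtain ⟨r, hr0, hr6, hSr, hmr⟩ := exists_rG hA hG h hS0 hSL1 hm hk2
  refine (bulk8_of hA hE1 (by linarith) h hr0 hr6 (cntG hA hG h hr0) ?_ hk1 hmr).le
  rw [← hq, ← hSq]
  exact mul_le_mul_of_nonneg_right hSr hq0.le

/-- **The core.** -/
theorem coreG (hA : AdmP b κ ε E) (hG : AdmG κ T R) (hE1 : 1 ≤ κ * b * Real.exp E)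
    (h : HG b κ ε E T R L P) (hL : 10 ^ 33 * E ≤ L * (κ ^ 3 * b ^ 2 * √ε)) {k : ℕ} (hk : 1 ≤ k) :
    P.coeff (k - 1) * P.coeff (k + 1) ≤ P.coeff k ^ 2 := by
  have hb := hA.hb
  have hb1 := hA.hb1
  have hκ := hA.hκ
  have hκ1 := hA.hκ1
  have hε := hA.hε
  have hε1 := hA.hε1
  have hE := hA.hE
  have hL0 : (0 : ℝ) ≤ L := Nat.cast_nonneg L
  by_cases hk2 : 10 ^ 19 * E ≤ k * (κ ^ 3 * b ^ 2)
  · exact highG hA hG hE1 h hk2
  push Not at hk2
  obtain ⟨q, hq⟩ : ∃ q, q = κ ^ 3 * b ^ 2 := ⟨_, rfl⟩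
  have hq0 : 0 < q := by rw [hq]; positivity
  have hq1 : q ≤ 1 := by
    rw [hq]
    exact mul_le_one₀ (pow_le_one₀ hκ.le hκ1) (by positivity) (pow_le_one₀ hb.le hb1)
  rw [← hq] at hk2 hL
  have hs0 : 0 < √ε := Real.sqrt_pos.2 hε
  refine lowG hA hG h ?_ hk ?_
  · have h1 : (L : ℝ) * (q * √ε) ≤ L * (1 * √ε) := by gcongr
    have h2 : (10 : ℝ) ^ 13 * E ≤ 10 ^ 33 * E := mul_le_mul_of_nonneg_right (by norm_num) (by linarith)
    linarith
  · have h1 : q * (10 ^ 13 * k) ≤ q * (L * √ε) := by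
      calc q * (10 ^ 13 * k) = 10 ^ 13 * (k * q) := by ring
        _ ≤ 10 ^ 13 * (10 ^ 19 * E) := mul_le_mul_of_nonneg_left hk2.le (by positivity)
        _ ≤ 10 ^ 33 * E := by
          have : (0 : ℝ) ≤ E := by linarith
          nlinarith
        _ ≤ L * (q * √ε) := hL
        _ = q * (L * √ε) := by ring
    exact le_of_mul_le_mul_left h1 hq0

end Pool.Agent.Helper74.GP
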