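import Pool.Agent.Helper74.GP.Gam
import Pool.Agent.Helper2.PC.Bulk8

/-!
# GPOLY core: the bulk (as Helper2/PC/Bulk8.lean)
-/

set_option autoImplicit false

namespace Pool.Agent.Helper74.GP

open Polynomial EVC Pool.Agent.Helper10.PC Pool.Agent.Helper2.PC

variable {b κ ε E T R : ℝ} {L : ℕ} {P : ℝ[X]}

open Classical in
/-- **Lower bound of the variance.** -/
theorem var8 (hA : AdmP b κ ε E) (hR : 1 ≤ R) (h : HG b κ ε E T R L P) {r : ℝ} (hr : 0 < r) (h6 : r ≤ R)
    (hJ : ∀ δ : ℝ, 0 < δ → δ ≤ 1 / 4 → (((Z P).filter fun ρ => ‖(r : ℂ) - ρ‖ ≤ δ * r).card : ℝ) ≤ 4 * E + L * √r * δ ^ 2)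
    (hy : 10 ^ 17 * E ≤ L * √r * (κ ^ 3 * b ^ 2)) : κ / 5 * (L * √r) ≤ V P r := by
  have hb := hA.hb
  have hb1 := hA.hb1
  have hκ := hA.hκ
  have hκ1 := hA.hκ1
  have hE := hA.hE
  have hκ3 : κ ^ 3 ≤ 1 := pow_le_one₀ hκ.le hκ1
  have hG : Gam P r ≤ 26000 * (L * √r) / b := by
    refine Gam_le hA hR h hr ?_ hJ
    have h1 : L * √r * (κ ^ 3 * b ^ 2) ≤ L * √r * (1 * b ^ 2) := by gcongr
    have h2 : E ≤ 10 ^ 17 * E := by nlinarith
    linarith
  obtain ⟨y, hyd⟩ : ∃ y, y = L * √r := ⟨_, rfl⟩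
  have hy0 : 0 ≤ y := by rw [hyd]; positivity
  rw [← hyd] at hy hG
  obtain ⟨θ, hθ⟩ : ∃ θ, θ = κ * b / 520000 := ⟨_, rfl⟩
  have hθ0 : 0 < θ := by rw [hθ]; positivity
  have hθb : θ ≤ b / 520000 := by
    rw [hθ]
    have : κ * b ≤ 1 * b := mul_le_mul_of_nonneg_right hκ1 hb.le
    linarith
  have hθabs : |θ| = θ := abs_of_pos hθ0
  obtain ⟨w, hw1, hw2⟩ := local_form8 hA hR h hr (θ := θ) (by rw [hθabs]; linarith)
  rw [hθabs] at hw1
  have hPr := h.toNice.eval_pos hr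
  have hhi := h.hi r θ hr h6 (by rw [hθabs]; linarith [Real.pi_gt_three])
  have hlo := h.lo r hr h6
  rw [hw2, norm_mul, Complex.norm_real, Real.norm_of_nonneg hPr.le, Complex.norm_exp, Pool.Agent.Helper14.PC.re_expo, ← hyd] at hhi
  have h1 : Real.exp (L * A r - E) * Real.exp (-(θ ^ 2 / 2 * V P r) + w.re) ≤
      Real.exp (L * A r + E - κ * y * (1 - Real.cos θ)) :=
    (mul_le_mul_of_nonneg_right hlo (Real.exp_pos _).le).trans hhi
  rw [← Real.exp_add] at h1
  have h2 := Real.exp_le_exp.1 h1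
  have h3 : -‖w‖ ≤ w.re := (abs_le.1 (Complex.abs_re_le_norm _)).1
  have h4 := Helper92.EV.one_sub_cos_lower hθ0.le (by linarith [Real.pi_gt_three])
  have h5 : κ * y * (θ ^ 2 / 5) ≤ κ * y * (1 - Real.cos θ) := mul_le_mul_of_nonneg_left h4 (by positivity)
  have h6' : Gam P r * θ ^ 3 ≤ 26000 * y / b * θ ^ 3 := mul_le_mul_of_nonneg_right hG (by positivity)
  have h7 : 26000 * y / b * θ ^ 3 = κ * y * θ ^ 2 / 20 := by
    have : θ ^ 3 = θ ^ 2 * (κ * b / 520000) := by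
      rw [← hθ]
      ring
    rw [this]
    field_simp
    ring
  have h8 : 2 * E ≤ κ * y * θ ^ 2 / 20 := by
    have : κ * y * θ ^ 2 = y * (κ ^ 3 * b ^ 2) / 270400000000 := by
      rw [hθ]
      ring
    rw [this]
    linarith
  have h9 : κ * y * θ ^ 2 / 10 ≤ θ ^ 2 / 2 * V P r := by linarith
  have h10 : θ ^ 2 / 2 * (κ / 5 * y) ≤ θ ^ 2 / 2 * V P r := by
    refine le_trans (le_of_eq ?_) h9
    ring
  rw [← hyd]
  exact le_of_mul_le_mul_left h10 (by positivity)

open Classical in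
/-- **The bulk.** -/
theorem bulk8_of (hA : AdmP b κ ε E) (hE1 : 1 ≤ κ * b * Real.exp E) (hR : 1 ≤ R) (h : HG b κ ε E T R L P) {r : ℝ} (hr : 0 < r) (h6 : r ≤ R)
    (hJ : ∀ δ : ℝ, 0 < δ → δ ≤ 1 / 4 → (((Z P).filter fun ρ => ‖(r : ℂ) - ρ‖ ≤ δ * r).card : ℝ) ≤ 4 * E + L * √r * δ ^ 2)
    (hy : 10 ^ 17 * E ≤ L * √r * (κ ^ 3 * b ^ 2)) {k : ℕ} (hk : 1 ≤ k) (hmean : mean P r = k) :
    P.coeff (k - 1) * P.coeff (k + 1) < P.coeff k ^ 2 := by
  have hb := hA.hb
  have hb1 := hA.hb1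
  have hκ := hA.hκ
  have hκ1 := hA.hκ1
  have hE := hA.hE
  have hκ3 : κ ^ 3 ≤ 1 := pow_le_one₀ hκ.le hκ1
  have hG : Gam P r ≤ 26000 * (L * √r) / b := by
    refine Gam_le hA hR h hr ?_ hJ
    have h1 : L * √r * (κ ^ 3 * b ^ 2) ≤ L * √r * (1 * b ^ 2) := by gcongr
    have h2 : E ≤ 10 ^ 17 * E := by nlinarith
    linarith
  have hV := var8 hA hR h hr h6 hJ hy
  have hWG := W_le_Gam P r
  have hVW := V_le_W P r
  have hPr := h.toNice.eval_pos hr
  have hlo := h.lo r hr h6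
  obtain ⟨y, hyd⟩ : ∃ y, y = L * √r := ⟨_, rfl⟩
  have hy0 : 0 ≤ y := by rw [hyd]; positivity
  rw [← hyd] at hy hG hV
  obtain ⟨q, hq⟩ : ∃ q, q = κ * b := ⟨_, rfl⟩
  have hq0 : 0 < q := by rw [hq]; positivity
  have hypos : 0 < y := by
    by_contra hcon
    have : y = 0 := le_antisymm (not_lt.1 hcon) hy0
    rw [this, zero_mul] at hy
    have : (0 : ℝ) < 10 ^ 17 * E := by positivity
    linarith
  obtain ⟨d, hd⟩ : ∃ d, d = κ * b / 520000 := ⟨_, rfl⟩
  obtain ⟨c, hc⟩ : ∃ c, c = κ * d ^ 2 * b / 65000 := ⟨_, rfl⟩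
  have hd0 : 0 < d := by rw [hd]; positivity
  have hc0 : 0 < c := by rw [hc]; positivity
  have hdb : d ≤ b / 520000 := by
    rw [hd]
    have : κ * b ≤ 1 * b := mul_le_mul_of_nonneg_right hκ1 hb.le
    linarith
  -- `Λ`
  obtain ⟨Λ, hΛ⟩ : ∃ Λ, Λ = κ * y * d ^ 2 := ⟨_, rfl⟩
  have hΛE : 2500 * E ≤ Λ := by
    have : Λ = y * (κ ^ 3 * b ^ 2) / 270400000000 := by
      rw [hΛ, hd]
      ring
    rw [this]
    linarith
  have hΛ0 : 0 < Λ := by linarith
  have hVpos : 0 < V P r := by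
    have h1 : 0 < κ / 5 * y := by positivity
    linarith
  have hVle : V P r ≤ 6500 * y / b := by
    have e : 26000 * y / b = 4 * (6500 * y / b) := by ring
    rw [e] at hG
    linarith
  have hcV : c * V P r ≤ Λ / 10 := by
    have h1 : c * V P r ≤ c * (6500 * y / b) := mul_le_mul_of_nonneg_left hVle hc0.le
    have h2 : c * (6500 * y / b) = Λ / 10 := by
      rw [hc, hΛ]
      field_simp
      norm_num
    linarith
  obtain ⟨v, hv⟩ : ∃ v, v = √(V P r) := ⟨_, rfl⟩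
  have hv2 : v ^ 2 = V P r := by rw [hv]; exact Real.sq_sqrt hVpos.le
  have hvb : 140000000 / q ≤ v := by
    rw [hv]
    apply Real.le_sqrt_of_sq_le
    rw [div_pow, div_le_iff₀ (by positivity)]
    have h1 : κ / 5 * y * q ^ 2 ≤ V P r * q ^ 2 := mul_le_mul_of_nonneg_right hV (by positivity)
    refine le_trans ?_ h1
    have h2 : κ / 5 * y * q ^ 2 = y * (κ ^ 3 * b ^ 2) / 5 := by
      rw [hq]
      ring
    rw [h2]
    have h3 : (10 : ℝ) ^ 17 * 1 ≤ 10 ^ 17 * E := mul_le_mul_of_nonneg_left hE (by positivity)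
    linarith
  have hq1 : q ≤ 1 := by
    rw [hq]
    exact mul_le_one₀ hκ1 hb.le hb1
  have iq1 : 1 ≤ 1 / q := by
    rw [le_div_iff₀ hq0]
    linarith
  have hvb' : 140000000 * (1 / q) ≤ v := by
    rw [mul_one_div]
    exact hvb
  -- the constant of the tail
  have htail : 480 * Real.exp (-(Λ / 20)) / c ^ 2 ≤ 1 := by
    rw [div_le_one (by positivity)]
    have h1 : Real.exp (-(Λ / 20)) ≤ q ^ 6 * Real.exp (-119) := by
      have h2 : (κ * b)⁻¹ ≤ Real.exp E := by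
        rw [inv_le_iff_one_le_mul₀ (by positivity), mul_comm]
        exact hE1
      have h3 : Real.exp (-E) ≤ q := by
        rw [Real.exp_neg, hq]
        rw [inv_le_comm₀ (Real.exp_pos _) (by positivity)]
        exact h2
      have h4 : Real.exp (-(6 * E)) ≤ q ^ 6 := by
        have : Real.exp (-(6 * E)) = Real.exp (-E) ^ 6 := by
          rw [← Real.exp_nat_mul]
          congr 1
          push_cast
          ring
        rw [this]
        exact pow_le_pow_left₀ (Real.exp_pos _).le h3 6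
      calc Real.exp (-(Λ / 20)) ≤ Real.exp (-(6 * E) + -119) := Real.exp_le_exp.2 (by linarith)
        _ = Real.exp (-(6 * E)) * Real.exp (-119) := Real.exp_add _ _
        _ ≤ q ^ 6 * Real.exp (-119) := mul_le_mul_of_nonneg_right h4 (Real.exp_pos _).le
    have h5 : Real.exp (-119) ≤ 1 / 2 ^ 119 := by
      rw [Real.exp_neg, ← one_div]
      apply one_div_le_one_div_of_le (by positivity)
      have h6 : (2 : ℝ) ≤ Real.exp 1 := by
        have := Real.add_one_le_exp (1 : ℝ)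
        linarith
      have h7 := pow_le_pow_left₀ (by norm_num) h6 119
      rw [← Real.exp_nat_mul] at h7
      refine h7.trans (le_of_eq ?_)
      norm_num
    have h8 : c ^ 2 = q ^ 6 / (65000 ^ 2 * 520000 ^ 4) := by
      rw [hc, hd, hq]
      ring
    rw [h8]
    calc 480 * Real.exp (-(Λ / 20)) ≤ 480 * (q ^ 6 * (1 / 2 ^ 119)) := by
          refine mul_le_mul_of_nonneg_left (h1.trans ?_) (by norm_num)
          exact mul_le_mul_of_nonneg_left h5 (by positivity)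
      _ = q ^ 6 * (480 / 2 ^ 119) := by ring
      _ ≤ q ^ 6 * (1 / (65000 ^ 2 * 520000 ^ 4)) := mul_le_mul_of_nonneg_left (by norm_num) (by positivity)
      _ = _ := by ring
  refine Helper92.EV.saddle_core P h.nn k hk r v d (130000 / q) (Real.exp (-(Λ / 20))) c hr hPr hd0 (by linarith) (by positivity) ?_
    (Real.exp_pos _).le hc0 ⟨?_, ?_⟩ ?_ ?_ ?_
  · have : 130000 / q * d = 1 / 4 := by
      rw [hd, hq]
      field_simp
      norm_num
    rw [this]
  · have e1 : 960 * (130000 / q) = 124800000 * (1 / q) := by ring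
    rw [e1]
    linarith
  · have e1 : 1 / d = 520000 * (1 / q) := by
      rw [hd, hq]
      field_simp
    rw [e1]
    linarith
  · linarith
  · intro x hx
    have hx0 : |x| = x := abs_of_nonneg hx.1
    obtain ⟨w, hw1, hw2⟩ := local_form8 hA hR h hr (θ := x) (by rw [hx0]; linarith [hx.2])
    rw [hx0] at hw1
    refine ⟨w, hw1.trans ?_, ?_⟩
    · refine mul_le_mul_of_nonneg_right ?_ (pow_nonneg hx.1 3)
      rw [hv2]
      calc Gam P r ≤ 26000 * y / b := hG
        _ = 130000 / q * (κ / 5 * y) := by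
            rw [hq]
            field_simp
            norm_num
        _ ≤ 130000 / q * V P r := mul_le_mul_of_nonneg_left hV (by positivity)
    · have e1 : aeval ((r : ℂ) * Complex.exp ((x : ℂ) * Complex.I)) P = aeval (pt r x) P := rfl
      rw [e1, hw2, hmean, hv2]
      congr 2
      push_cast
      ring
  · intro x hx
    have hx0 : 0 ≤ x := hd0.le.trans hx.1
    have e1 : aeval ((r : ℂ) * Complex.exp ((x : ℂ) * Complex.I)) P = aeval (pt r x) P := rfl
    rw [e1, hv2, ← Real.exp_add]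
    have h1 := h.hi r x hr h6 (by rw [abs_of_nonneg hx0]; exact hx.2)
    rw [← hyd] at h1
    refine h1.trans ?_
    refine le_trans ?_ (mul_le_mul_of_nonneg_left hlo (Real.exp_pos _).le)
    rw [← Real.exp_add]
    apply Real.exp_le_exp.2
    have h2 := Helper92.EV.one_sub_cos_lower hx0 hx.2
    have h3 : d ^ 2 ≤ x ^ 2 := pow_le_pow_left₀ hd0.le hx.1 2
    have h4 : κ * y * (d ^ 2 / 5) ≤ κ * y * (1 - Real.cos x) := mul_le_mul_of_nonneg_left (by linarith) (by positivity)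
    have h5 : κ * y * (d ^ 2 / 5) = Λ / 5 := by
      rw [hΛ]
      ring
    linarith

end Pool.Agent.Helper74.GP
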