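import Pool.Agent.Helper74.GP.Core

/-!
# GPOLY core: the theorem with the largest radius eliminated

`HK`: the bounds are needed for `1 / L² ≤ r ≤ 801 T³ / κ₀²` only, with the decay `κ₀ L min (√r) (1 / r)`.
-/

set_option autoImplicit false

namespace Pool.Agent.Helper74.GP

open Polynomial EVC Pool.Agent.Helper10.PC Pool.Agent.Helper2.PC

/-- The hypothesis on one polynomial. -/
structure HK (b κ₀ ε E T : ℝ) (L : ℕ) (P : ℝ[X]) : Prop extends Nice L P where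
  dist : ∀ ρ ∈ Z P, ∀ r : ℝ, 0 < r → b * (r + ‖ρ‖) ≤ ‖(r : ℂ) - ρ‖
  near : ∀ ρ ∈ Z P, ‖ρ‖ < ε → ρ.re < 0 ∧ ρ.im ^ 2 ≤ 3 * ρ.re ^ 2
  far : ∀ ρ ∈ Z P, ‖ρ‖ ≤ T
  lo : ∀ r : ℝ, 1 / (L : ℝ) ^ 2 ≤ r → r ≤ 801 * T ^ 3 / κ₀ ^ 2 → Real.exp (L * A r - E) ≤ P.eval r
  hi : ∀ r θ : ℝ, 1 / (L : ℝ) ^ 2 ≤ r → r ≤ 801 * T ^ 3 / κ₀ ^ 2 → |θ| ≤ Real.pi →
    ‖aeval (pt r θ) P‖ ≤ Real.exp (L * A r + E - κ₀ * (L * min (√r) (1 / r)) * (1 - Real.cos θ))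

variable {b κ₀ ε E T : ℝ} {L : ℕ} {P : ℝ[X]}

theorem norm_le_eval (h : Nice L P) {r : ℝ} (hr : 0 ≤ r) (θ : ℝ) : ‖aeval (pt r θ) P‖ ≤ P.eval r := by
  have h1 : aeval (pt r θ) P = ∑ i ∈ Finset.range (P.natDegree + 1), ((P.coeff i : ℝ) : ℂ) * pt r θ ^ i := by
    rw [aeval_eq_sum_range]
    refine Finset.sum_congr rfl fun i _ => ?_
    rw [Algebra.smul_def]
    rfl
  have h2 : ‖pt r θ‖ = r := by
    unfold pt
    rw [norm_mul, Complex.norm_exp_ofReal_mul_I, mul_one, Complex.norm_real, Real.norm_of_nonneg hr]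
  rw [h1, eval_eq_sum_range]
  refine (norm_sum_le _ _).trans (Finset.sum_le_sum fun i _ => ?_)
  rw [norm_mul, norm_pow, h2, Complex.norm_real, Real.norm_of_nonneg (h.nn i)]

theorem eval_mono (h : Nice L P) {r s : ℝ} (hr : 0 ≤ r) (hrs : r ≤ s) : P.eval r ≤ P.eval s := by
  rw [eval_eq_sum_range, eval_eq_sum_range]
  refine Finset.sum_le_sum fun i _ => ?_
  have := h.nn i
  gcongr

theorem one_le_eval (h : Nice L P) {r : ℝ} (hr : 0 ≤ r) : 1 ≤ P.eval r := by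
  have h1 := eval_mono h le_rfl hr
  have h2 : P.eval 0 = P.coeff 0 := (coeff_zero_eq_eval_zero P).symm
  rw [h2] at h1
  exact h.one.trans h1

/-- the parameters of `HK` are admissible -/
structure AdmK (b κ₀ ε E T : ℝ) : Prop where
  hb : 0 < b
  hb1 : b ≤ 1
  hκ : 0 < κ₀
  hκ1 : κ₀ ≤ 1
  hε : 0 < ε
  hε1 : ε ≤ 1
  hE : 1 ≤ E
  hT : 1 ≤ T
  hE1 : 1200 * T ^ 5 ≤ κ₀ ^ 4 * b * Real.exp E

/-- the largest radius -/
noncomputable def RR (κ₀ T : ℝ) : ℝ := 801 * T ^ 3 / κ₀ ^ 2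

/-- the constant of the decay up to the largest radius -/
noncomputable def kk (κ₀ T : ℝ) : ℝ := κ₀ / (RR κ₀ T * √(RR κ₀ T))

theorem RR_ge (h : AdmK b κ₀ ε E T) : 801 * T ^ 3 ≤ RR κ₀ T := by
  unfold RR
  rw [le_div_iff₀ (pow_pos h.hκ 2)]
  have h1 : κ₀ ^ 2 ≤ 1 := pow_le_one₀ h.hκ.le h.hκ1
  have hT := h.hT
  have h2 : 0 ≤ 801 * T ^ 3 := by positivity
  nlinarith

theorem RR_pos (h : AdmK b κ₀ ε E T) : 0 < RR κ₀ T := by
  have := RR_ge h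
  have hT := h.hT
  have h2 : 0 < 801 * T ^ 3 := by positivity
  linarith

theorem RR_ge' (h : AdmK b κ₀ ε E T) : 801 ≤ RR κ₀ T := by
  have h1 := RR_ge h
  have h2 : (1 : ℝ) ≤ T ^ 3 := one_le_pow₀ h.hT
  linarith

theorem kk_sq (h : AdmK b κ₀ ε E T) : kk κ₀ T ^ 2 * RR κ₀ T ^ 3 = κ₀ ^ 2 := by
  have hR := RR_pos h
  have h1 : √(RR κ₀ T) ^ 2 = RR κ₀ T := Real.sq_sqrt hR.le
  have h2 : (RR κ₀ T * √(RR κ₀ T)) ^ 2 = RR κ₀ T ^ 3 := by
    rw [mul_pow, h1]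
    ring
  unfold kk
  rw [div_pow, h2]
  field_simp

theorem kk_pos (h : AdmK b κ₀ ε E T) : 0 < kk κ₀ T := by
  have hR := RR_pos h
  have := Real.sqrt_pos.2 hR
  have hκ := h.hκ
  unfold kk
  positivity

theorem RS_ge (h : AdmK b κ₀ ε E T) : 1 ≤ RR κ₀ T * √(RR κ₀ T) := by
  have hR := RR_ge' h
  have h1 : 1 ≤ √(RR κ₀ T) := by
    rw [Real.one_le_sqrt]
    linarith
  nlinarith

theorem kk_le (h : AdmK b κ₀ ε E T) : kk κ₀ T ≤ κ₀ := by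
  unfold kk
  rw [div_le_iff₀ (by linarith [RS_ge h])]
  have h1 := RS_ge h
  have hκ := h.hκ
  nlinarith

/-- lower bound of the constant -/
theorem kk_ge (h : AdmK b κ₀ ε E T) : κ₀ ^ 4 ≤ 23000 * T ^ 5 * kk κ₀ T := by
  have hT := h.hT
  have hκ := h.hκ
  have hk := kk_pos h
  have h1 := kk_sq h
  have h2 : RR κ₀ T * κ₀ ^ 2 = 801 * T ^ 3 := by
    unfold RR
    field_simp
  -- squares
  have h3 : (κ₀ ^ 4) ^ 2 ≤ (23000 * T ^ 5 * kk κ₀ T) ^ 2 := by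
    have e1 : (κ₀ ^ 4) ^ 2 = kk κ₀ T ^ 2 * (801 * T ^ 3) ^ 3 := by
      rw [← h2]
      calc (κ₀ ^ 4) ^ 2 = κ₀ ^ 2 * κ₀ ^ 6 := by ring
        _ = kk κ₀ T ^ 2 * RR κ₀ T ^ 3 * κ₀ ^ 6 := by rw [h1]
        _ = _ := by ring
    have e2 : T ^ 9 ≤ T ^ 10 := pow_le_pow_right₀ hT (by norm_num)
    rw [e1]
    calc kk κ₀ T ^ 2 * (801 * T ^ 3) ^ 3 = 801 ^ 3 * (kk κ₀ T ^ 2 * T ^ 9) := by ring
      _ ≤ 23000 ^ 2 * (kk κ₀ T ^ 2 * T ^ 10) := by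
        have h4 : kk κ₀ T ^ 2 * T ^ 9 ≤ kk κ₀ T ^ 2 * T ^ 10 := mul_le_mul_of_nonneg_left e2 (by positivity)
        have h5 : 0 ≤ kk κ₀ T ^ 2 * T ^ 9 := by positivity
        nlinarith
      _ = _ := by ring
  exact (pow_le_pow_iff_left₀ (by positivity) (by positivity) two_ne_zero).1 h3

theorem admG (h : AdmK b κ₀ ε E T) : AdmG (kk κ₀ T) T (RR κ₀ T) := by
  have hT := h.hT
  have hκ := h.hκ
  have hR := RR_ge h
  have hR' := RR_ge' h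
  have h1 := kk_sq h
  have hT3 : T ≤ T ^ 3 := by
    calc T = T * 1 := (mul_one T).symm
      _ ≤ T * T ^ 2 := mul_le_mul_of_nonneg_left (one_le_pow₀ hT) (by linarith)
      _ = T ^ 3 := by ring
  refine ⟨hT, by linarith, by linarith, ?_, ?_⟩
  · rw [h1]
    exact pow_le_one₀ hκ.le h.hκ1
  · rw [h1, mul_sub]
    have h2 : κ₀ ^ 2 * RR κ₀ T = 801 * T ^ 3 := by
      unfold RR
      field_simp
    have h3 : κ₀ ^ 2 * T ≤ 1 * T ^ 3 := mul_le_mul (pow_le_one₀ hκ.le h.hκ1) hT3 (by linarith) zero_le_one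
    rw [h2]
    linarith

theorem admP (h : AdmK b κ₀ ε E T) : AdmP b (kk κ₀ T) ε (E + 3) :=
  ⟨h.hb, h.hb1, kk_pos h, (kk_le h).trans h.hκ1, h.hε, h.hε1, by linarith [h.hE]⟩

theorem hE1 (h : AdmK b κ₀ ε E T) : 1 ≤ kk κ₀ T * b * Real.exp (E + 3) := by
  have hT := h.hT
  have hb := h.hb
  have h1 := h.hE1
  have h2 := kk_ge h
  have h3 : (20 : ℝ) ≤ Real.exp 3 := by
    have a1 : Real.exp 3 = Real.exp 1 ^ 3 := by
      rw [← Real.exp_nat_mul]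
      norm_num
    rw [a1]
    have a2 : (2.7182 : ℝ) ≤ Real.exp 1 := by
      have := Real.exp_one_gt_d9
      linarith
    have a3 := pow_le_pow_left₀ (by norm_num) a2 3
    refine le_trans ?_ a3
    norm_num
  rw [Real.exp_add]
  obtain ⟨x, hx⟩ : ∃ x, x = Real.exp E := ⟨_, rfl⟩
  have hx0 : 0 < x := by rw [hx]; exact Real.exp_pos E
  rw [← hx] at h1 ⊢
  have hT5 : 0 < T ^ 5 := by positivity
  have hk := kk_pos h
  have h4 : κ₀ ^ 4 * (b * x) ≤ 23000 * T ^ 5 * kk κ₀ T * (b * x) :=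
    mul_le_mul_of_nonneg_right h2 (by positivity)
  have h5 : T ^ 5 * 1200 ≤ T ^ 5 * (23000 * (kk κ₀ T * b * x)) := by
    calc T ^ 5 * 1200 = 1200 * T ^ 5 := mul_comm _ _
      _ ≤ κ₀ ^ 4 * b * x := h1
      _ = κ₀ ^ 4 * (b * x) := by ring
      _ ≤ _ := h4
      _ = _ := by ring
  have h6 := le_of_mul_le_mul_left h5 hT5
  have h7 : 0 ≤ kk κ₀ T * b * x := by positivity
  calc (1 : ℝ) ≤ kk κ₀ T * b * x * 20 := by linarith
    _ ≤ kk κ₀ T * b * x * Real.exp 3 := mul_le_mul_of_nonneg_left h3 h7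
    _ = _ := by ring

/-- the decay up to the largest radius -/
theorem decay_le (h : AdmK b κ₀ ε E T) {r : ℝ} (hr : 0 < r) (hrR : r ≤ RR κ₀ T) :
    kk κ₀ T * √r ≤ κ₀ * min (√r) (1 / r) := by
  have hκ := h.hκ
  have hsr := Real.sqrt_pos.2 hr
  have hRS := RS_ge h
  rw [mul_min_of_nonneg _ _ hκ.le]
  refine le_min (mul_le_mul_of_nonneg_right (kk_le h) hsr.le) ?_
  unfold kk
  rw [mul_one_div, div_mul_eq_mul_div, div_le_div_iff₀ (by linarith) hr]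
  have h1 : √r ≤ √(RR κ₀ T) := Real.sqrt_le_sqrt hrR
  have h2 : √r * r ≤ RR κ₀ T * √(RR κ₀ T) := by
    rw [mul_comm (RR κ₀ T)]
    exact mul_le_mul h1 hrR hr.le (Real.sqrt_nonneg _)
  calc κ₀ * √r * r = κ₀ * (√r * r) := by ring
    _ ≤ _ := mul_le_mul_of_nonneg_left h2 hκ.le

theorem hg_of (h : AdmK b κ₀ ε E T) (hL : 1 ≤ L) (hP : HK b κ₀ ε E T L P) :
    HG b (kk κ₀ T) ε (E + 3) T (RR κ₀ T) L P := by
  have hLR : (1 : ℝ) ≤ L := by exact_mod_cast hL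
  have hL0 : (0 : ℝ) < L := by linarith
  have hE := h.hE
  have hk := kk_pos h
  have hk1 : kk κ₀ T ≤ 1 := (kk_le h).trans h.hκ1
  obtain ⟨r₀, hr₀⟩ : ∃ r₀, r₀ = 1 / (L : ℝ) ^ 2 := ⟨_, rfl⟩
  have hr₀p : 0 < r₀ := by rw [hr₀]; positivity
  have hr₀1 : r₀ ≤ 1 := by
    rw [hr₀, div_le_one (by positivity)]
    exact one_le_pow₀ hLR
  have hs₀ : (L : ℝ) * √r₀ = 1 := by
    rw [hr₀, Real.sqrt_div zero_le_one, Real.sqrt_one, Real.sqrt_sq hL0.le]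
    field_simp
  have hsmall : ∀ r : ℝ, 0 < r → r ≤ r₀ → (L : ℝ) * √r ≤ 1 := by
    intro r _ h1
    rw [← hs₀]
    exact mul_le_mul_of_nonneg_left (Real.sqrt_le_sqrt h1) hL0.le
  have hR1 : r₀ ≤ RR κ₀ T := by linarith [RR_ge' h]
  refine ⟨hP.toNice, hP.dist, hP.near, hP.far, ?_, ?_⟩
  · intro r hr hrR
    rcases le_total r₀ r with h1 | h1
    · refine le_trans ?_ (hP.lo r (by rw [← hr₀]; exact h1) hrR)
      exact Real.exp_le_exp.2 (by linarith)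
    · refine le_trans ?_ (one_le_eval hP.toNice hr.le)
      rw [Real.exp_le_one_iff]
      have h2 := hsmall r hr h1
      have h3 : (L : ℝ) * A r ≤ L * (√r / 2) := mul_le_mul_of_nonneg_left (A_le r) hL0.le
      linarith
  · intro r θ hr hrR hθ
    have hc : 0 ≤ 1 - Real.cos θ := by linarith [Real.cos_le_one θ]
    have hc2 : 1 - Real.cos θ ≤ 2 := by linarith [Real.neg_one_le_cos θ]
    rcases le_total r₀ r with h1 | h1
    · refine (hP.hi r θ (by rw [← hr₀]; exact h1) hrR hθ).trans (Real.exp_le_exp.2 ?_)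
      have h2 := mul_le_mul_of_nonneg_left (decay_le h hr hrR) hL0.le
      have h3 := mul_le_mul_of_nonneg_right h2 hc
      have e1 : kk κ₀ T * (L * √r) * (1 - Real.cos θ) = L * (kk κ₀ T * √r) * (1 - Real.cos θ) := by ring
      have e2 : κ₀ * (L * min (√r) (1 / r)) * (1 - Real.cos θ) =
          L * (κ₀ * min (√r) (1 / r)) * (1 - Real.cos θ) := by ring
      rw [e1, e2]
      linarith
    · have h2 := hP.hi r₀ 0 (by rw [hr₀]) hR1 (by rw [abs_zero]; exact Real.pi_pos.le)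
      have e1 : aeval (pt r₀ 0) P = ((P.eval r₀ : ℝ) : ℂ) := by
        unfold pt
        rw [Complex.ofReal_zero, zero_mul, Complex.exp_zero, mul_one]
        exact aeval_algebraMap_apply_eq_algebraMap_eval r₀ P
      rw [e1, Complex.norm_real, Real.norm_of_nonneg (zero_le_one.trans (one_le_eval hP.toNice hr₀p.le)),
        Real.cos_zero, sub_self, mul_zero, sub_zero] at h2
      refine (norm_le_eval hP.toNice hr.le θ).trans ((eval_mono hP.toNice hr.le h1).trans (h2.trans ?_))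
      apply Real.exp_le_exp.2
      have h3 : (L : ℝ) * A r₀ ≤ L * (√r₀ / 2) := mul_le_mul_of_nonneg_left (A_le r₀) hL0.le
      have h4 : 0 ≤ (L : ℝ) * A r := mul_nonneg hL0.le (A_nonneg r)
      have h5 := hsmall r hr h1
      have h6 : kk κ₀ T * (L * √r) * (1 - Real.cos θ) ≤ 1 * 1 * 2 := by
        have h7 : 0 ≤ (L : ℝ) * √r := by positivity
        gcongr
      linarith

theorem kk3_ge (h : AdmK b κ₀ ε E T) : κ₀ ^ 12 ≤ 13 * 10 ^ 12 * (T ^ 15 * kk κ₀ T ^ 3) := by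
  have h1 := kk_ge h
  have hκ := h.hκ
  have hT := h.hT
  have h2 := pow_le_pow_left₀ (by positivity) h1 3
  have h3 : 0 ≤ T ^ 15 * kk κ₀ T ^ 3 := by
    have := kk_pos h
    positivity
  calc κ₀ ^ 12 = (κ₀ ^ 4) ^ 3 := by ring
    _ ≤ (23000 * T ^ 5 * kk κ₀ T) ^ 3 := h2
    _ = 23000 ^ 3 * (T ^ 15 * kk κ₀ T ^ 3) := by ring
    _ ≤ _ := mul_le_mul_of_nonneg_right (by norm_num) h3

/-- **The high range**: no condition on `L`. -/
theorem highK (h : AdmK b κ₀ ε E T) (hP : HK b κ₀ ε E T L P) {k : ℕ}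
    (hk : 10 ^ 33 * (E * T ^ 15) ≤ k * (κ₀ ^ 12 * b ^ 2)) : P.coeff (k - 1) * P.coeff (k + 1) ≤ P.coeff k ^ 2 := by
  have hT := h.hT
  have hE := h.hE
  have hb := h.hb
  have hκ := h.hκ
  rcases Nat.eq_zero_or_pos L with hL0 | hL0
  · have h1 := hP.deg
    have h2 : P.natDegree = 0 := by omega
    rw [P.coeff_eq_zero_of_natDegree_lt (by omega : P.natDegree < k + 1), mul_zero]
    positivity
  refine highG (admP h) (admG h) (hE1 h) (hg_of h hL0 hP) ?_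
  have h1 := kk3_ge h
  have hT15 : 0 < T ^ 15 := by positivity
  have h2 : T ^ 15 * (10 ^ 33 * E) ≤ T ^ 15 * (13 * 10 ^ 12 * (k * (kk κ₀ T ^ 3 * b ^ 2))) := by
    calc T ^ 15 * (10 ^ 33 * E) = 10 ^ 33 * (E * T ^ 15) := by ring
      _ ≤ k * (κ₀ ^ 12 * b ^ 2) := hk
      _ ≤ k * (13 * 10 ^ 12 * (T ^ 15 * kk κ₀ T ^ 3) * b ^ 2) := by gcongr
      _ = _ := by ring
  have h3 := le_of_mul_le_mul_left h2 hT15
  have h4 : (13 : ℝ) * 10 ^ 12 * (10 ^ 19 * (E + 3)) ≤ 10 ^ 33 * E := by nlinarith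
  have h5 : (13 : ℝ) * 10 ^ 12 * (10 ^ 19 * (E + 3)) ≤ 13 * 10 ^ 12 * (k * (kk κ₀ T ^ 3 * b ^ 2)) := h4.trans h3
  exact le_of_mul_le_mul_left h5 (by norm_num)

/-- **The core.** -/
theorem coreK (h : AdmK b κ₀ ε E T) (hP : HK b κ₀ ε E T L P)
    (hL : 10 ^ 47 * (E * T ^ 15) ≤ L * (κ₀ ^ 12 * b ^ 2 * √ε)) {k : ℕ} (hk : 1 ≤ k) :
    P.coeff (k - 1) * P.coeff (k + 1) ≤ P.coeff k ^ 2 := by
  have hT := h.hT
  have hE := h.hE
  have hb := h.hb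
  have hκ := h.hκ
  rcases Nat.eq_zero_or_pos L with hL0 | hL0
  · have h1 := hP.deg
    have h2 : P.natDegree = 0 := by omega
    rw [P.coeff_eq_zero_of_natDegree_lt (by omega : P.natDegree < k + 1), mul_zero]
    positivity
  refine coreG (admP h) (admG h) (hE1 h) (hg_of h hL0 hP) ?_ hk
  have h1 := kk3_ge h
  have hT15 : 0 < T ^ 15 := by positivity
  have hs := Real.sqrt_nonneg ε
  have h2 : T ^ 15 * (10 ^ 47 * E) ≤ T ^ 15 * (13 * 10 ^ 12 * (L * (kk κ₀ T ^ 3 * b ^ 2 * √ε))) := by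
    calc T ^ 15 * (10 ^ 47 * E) = 10 ^ 47 * (E * T ^ 15) := by ring
      _ ≤ L * (κ₀ ^ 12 * b ^ 2 * √ε) := hL
      _ ≤ L * (13 * 10 ^ 12 * (T ^ 15 * kk κ₀ T ^ 3) * b ^ 2 * √ε) := by gcongr
      _ = _ := by ring
  have h3 := le_of_mul_le_mul_left h2 hT15
  have h4 : (13 : ℝ) * 10 ^ 12 * (10 ^ 33 * (E + 3)) ≤ 10 ^ 47 * E := by nlinarith
  have h5 : (13 : ℝ) * 10 ^ 12 * (10 ^ 33 * (E + 3)) ≤ 13 * 10 ^ 12 * (L * (kk κ₀ T ^ 3 * b ^ 2 * √ε)) := h4.trans h3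
  exact le_of_mul_le_mul_left h5 (by norm_num)

end Pool.Agent.Helper74.GP
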