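import Pool.Agent.Helper74.GP.Defs
import Pool.Agent.Helper10.PC.Count

/-!
# GPOLY core: root counts and moments from `HG` (as Helper10/PC/Count.lean)
-/

set_option autoImplicit false

namespace Pool.Agent.Helper74.GP

open Polynomial EVC Pool.Agent.Helper10.PC

variable {b κ ε E T R : ℝ} {L : ℕ} {P : ℝ[X]}

/-- the value at a positive number -/
theorem HG.eval_le (h : HG b κ ε E T R L P) {r : ℝ} (hr : 0 < r) (h6 : r ≤ R) :
    P.eval r ≤ Real.exp (L * A r + E) := by
  have hi := h.hi r 0 hr h6 (by rw [abs_zero]; exact Real.pi_pos.le)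
  have e1 : aeval (pt r 0) P = ((P.eval r : ℝ) : ℂ) := by
    unfold pt
    rw [Complex.ofReal_zero, zero_mul, Complex.exp_zero, mul_one]
    exact aeval_algebraMap_apply_eq_algebraMap_eval r P
  rw [e1, Complex.norm_real, Real.norm_of_nonneg (h.toNice.eval_pos hr).le, Real.cos_zero, sub_self,
    mul_zero, sub_zero] at hi
  exact hi

theorem cnt_le (h : HG b κ ε E T R L P) {s : ℝ} (hs : 0 < s) (h2 : 2 * s ≤ R) :
    (cnt P s : ℝ) ≤ 2 * (L * √s + E) := by
  have hj := jensen h.toNice hs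
  have hi := h.eval_le (r := 2 * s) (by positivity) (by linarith)
  have hlg := Real.log_le_log (by positivity) (hj.trans hi)
  rw [Real.log_exp, Real.log_pow] at hlg
  have hsq : √(2 * s) / 2 ≤ √s := by
    have h3 : √(2 * s) ≤ √(4 * s) := Real.sqrt_le_sqrt (by linarith)
    rw [sqrt_four_mul] at h3
    linarith
  have hL0 : (0 : ℝ) ≤ L := Nat.cast_nonneg L
  have h5 : (L : ℝ) * A (2 * s) ≤ L * √s := mul_le_mul_of_nonneg_left ((A_le _).trans hsq) hL0
  have hl2 : (1 : ℝ) / 2 ≤ Real.log 2 := by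
    have := Real.log_two_gt_d9
    linarith
  have h8 : (cnt P s : ℝ) * (1 / 2) ≤ (cnt P s : ℝ) * Real.log 2 :=
    mul_le_mul_of_nonneg_left hl2 (Nat.cast_nonneg _)
  linarith

/-- **The count.** -/
theorem M_le (h : HG b κ ε E T R L P) (hR : 1 ≤ R) (hE : 0 ≤ E) {r : ℝ} (hr : 0 < r) :
    M P r ≤ 8 * (L * √r) + 3 * E := by
  have hL0 : (0 : ℝ) ≤ L := Nat.cast_nonneg L
  have base : ∀ r : ℝ, 1 / 256 ≤ r → M P r ≤ 8 * (L * √r) + 3 * E := by
    intro r hr
    have h1 := M_le_card P r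
    have h2 := card_Z_le h.toNice
    have h3 : (1 : ℝ) / 16 ≤ √r := by
      apply Real.le_sqrt_of_sq_le
      linarith
    have h4 : (L : ℝ) * (1 / 16) ≤ L * √r := mul_le_mul_of_nonneg_left h3 hL0
    linarith
  have key : ∀ n : ℕ, ∀ r : ℝ, 0 < r → 1 / 256 ≤ 4 ^ n * r →
      M P r ≤ 8 * (L * √r) + 3 * E := by
    intro n
    induction n with
    | zero =>
      intro r _ h3
      rw [pow_zero, one_mul] at h3
      exact base r h3
    | succ n ih =>
      intro r hr h3
      by_cases h4 : 1 / 256 ≤ r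
      · exact base r h4
      · push Not at h4
        have h5 := ih (4 * r) (by linarith) (by
          rw [pow_succ] at h3
          linarith)
        have h6 := M_step P hr
        have h7 := cnt_le h (s := 4 * r) (by positivity) (by linarith)
        rw [sqrt_four_mul] at h5 h7
        have h9 : 0 ≤ (L : ℝ) * √r := by positivity
        have e1 : (L : ℝ) * (2 * √r) = 2 * (L * √r) := by ring
        rw [e1] at h5 h7
        linarith
  obtain ⟨n, hn⟩ := pow_unbounded_of_one_lt (1 / 256 / r) (show (1 : ℝ) < 4 by norm_num)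
  exact key n r hr ((div_lt_iff₀ hr).1 hn).le

theorem mean_le (h : HG b κ ε E T R L P) (hR : 1 ≤ R) (hb : 0 < b) (hE : 0 ≤ E) {r : ℝ} (hr : 0 < r) :
    mean P r ≤ 1 / b * (8 * (L * √r) + 3 * E) := by
  have h1 := mean_le_M h.toNice hb hr (fun ρ hρ => h.dist ρ hρ r hr) (mean_eq h.toNice hr)
  rw [one_div]
  exact h1.trans (mul_le_mul_of_nonneg_left (M_le h hR hE hr) (by positivity))

theorem W_le (h : HG b κ ε E T R L P) (hR : 1 ≤ R) (hb : 0 < b) (hE : 0 ≤ E) {r : ℝ} (hr : 0 < r) :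
    W P r ≤ 1 / b ^ 2 * (8 * (L * √r) + 3 * E) :=
  (W_le_M hr hb (fun ρ hρ => h.dist ρ hρ r hr)).trans
    (mul_le_mul_of_nonneg_left (M_le h hR hE hr) (by positivity))

end Pool.Agent.Helper74.GP
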