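import Pool.Agent.Helper10.PC.Defs

/-!
# GPOLY core: the hypothesis on one polynomial, with a variable bound for the roots

As `Helper10.PC.HP`, with `8` replaced by `T`, `600` replaced by `R` and without the field `top`.
-/

set_option autoImplicit false

namespace Pool.Agent.Helper74.GP

open Polynomial EVC

/-- The hypothesis on one polynomial. -/
structure HG (b κ ε E T R : ℝ) (L : ℕ) (P : ℝ[X]) : Prop extends Nice L P where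
  dist : ∀ ρ ∈ Z P, ∀ r : ℝ, 0 < r → b * (r + ‖ρ‖) ≤ ‖(r : ℂ) - ρ‖
  near : ∀ ρ ∈ Z P, ‖ρ‖ < ε → ρ.re < 0 ∧ ρ.im ^ 2 ≤ 3 * ρ.re ^ 2
  far : ∀ ρ ∈ Z P, ‖ρ‖ ≤ T
  lo : ∀ r : ℝ, 0 < r → r ≤ R → Real.exp (L * A r - E) ≤ P.eval r
  hi : ∀ r θ : ℝ, 0 < r → r ≤ R → |θ| ≤ Real.pi →
    ‖aeval (pt r θ) P‖ ≤ Real.exp (L * A r + E - κ * (L * √r) * (1 - Real.cos θ))

/-- the parameters `T`, `R` are admissible -/
structure AdmG (κ T R : ℝ) : Prop where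
  hT : 1 ≤ T
  hR : 600 ≤ R
  hTR : 4 * T ≤ R
  hκ1 : κ ^ 2 * R ^ 3 ≤ 1
  hκR : 800 * T ^ 3 ≤ κ ^ 2 * R ^ 3 * (R - T)

end Pool.Agent.Helper74.GP
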