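import Pool.Agent.Helper74.GP.Count
import Pool.Agent.Helper2.PC.Gam

/-!
# GPOLY core: the sums over the roots, the local form (as Helper2/PC/Gam.lean)
-/

set_option autoImplicit false

namespace Pool.Agent.Helper74.GP

open Polynomial EVC Pool.Agent.Helper10.PC Pool.Agent.Helper2.PC

variable {b κ ε E T R : ℝ} {L : ℕ} {P : ℝ[X]}

open Classical in
/-- the two near sums -/
theorem near_sums (hA : AdmP b κ ε E) (hR : 1 ≤ R) (h : HG b κ ε E T R L P) {r : ℝ} (hr : 0 < r)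
    (hJ : ∀ δ : ℝ, 0 < δ → δ ≤ 1 / 4 → (((Z P).filter fun ρ => ‖(r : ℂ) - ρ‖ ≤ δ * r).card : ℝ) ≤ 4 * E + L * √r * δ ^ 2) :
    ((Z P).map fun ρ => if xr r ρ ≤ 1 / 4 then (1 / xr r ρ) ^ 3 else 0).sum ≤ 4096 * E / b ^ 3 + 64 * (L * √r) / b ∧
    ((Z P).map fun ρ => if xr r ρ ≤ 1 / 4 then (1 / xr r ρ) ^ 1 else 0).sum ≤ 64 * E / b + L * √r := by
  have hE := hA.hE
  have h1 := sum_cube (xr r) (Z P) (b := b) (a := 4 * E) (y := L * √r) hA.hb hA.hb1 (by linarith) (by positivity)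
    (fun ρ hρ => xr_ge hr hA.hb (h.dist ρ hρ r hr)) (fun δ hδ hδ4 => by
      have h2 := hJ δ hδ hδ4
      have h3 : (Z P).filter (fun ρ => xr r ρ ≤ δ) = (Z P).filter (fun ρ => ‖(r : ℂ) - ρ‖ ≤ δ * r) := by
        refine Multiset.filter_congr fun ρ _ => ?_
        rw [xr, div_le_iff₀ hr]
      rw [h3]
      exact h2)
  have e1 : 1024 * (4 * E) = 4096 * E := by ring
  have e2 : 16 * (4 * E) = 64 * E := by ring
  rw [e1, e2] at h1
  exact h1

open Classical in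
theorem Gam_le (hA : AdmP b κ ε E) (hR : 1 ≤ R) (h : HG b κ ε E T R L P) {r : ℝ} (hr : 0 < r) (hy : E ≤ L * √r * b ^ 2)
    (hJ : ∀ δ : ℝ, 0 < δ → δ ≤ 1 / 4 → (((Z P).filter fun ρ => ‖(r : ℂ) - ρ‖ ≤ δ * r).card : ℝ) ≤ 4 * E + L * √r * δ ^ 2) :
    Gam P r ≤ 26000 * (L * √r) / b := by
  have hE := hA.hE
  have hb := hA.hb
  have hb1 := hA.hb1
  have h1 := (near_sums hA hR h hr hJ).1
  have h2 : Gam P r ≤ ((Z P).map fun ρ => 4 * (if xr r ρ ≤ 1 / 4 then (1 / xr r ρ) ^ 3 else 0) + 810 * min 1 (r / ‖ρ‖)).sum := by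
    unfold Gam
    exact Multiset.sum_map_le_sum_map _ _ fun ρ hρ => KK_le hr hb (h.dist ρ hρ r hr)
  rw [Multiset.sum_map_add, Multiset.sum_map_mul_left, Multiset.sum_map_mul_left] at h2
  have h3 : ((Z P).map fun ρ => min 1 (r / ‖ρ‖)).sum ≤ 8 * (L * √r) + 3 * E := M_le h hR (by linarith) hr
  obtain ⟨y, hyd⟩ : ∃ y, y = L * √r := ⟨_, rfl⟩
  rw [← hyd] at h1 h3 hy ⊢
  have hy0 : 0 ≤ y := by rw [hyd]; positivity
  have hb2 : b ^ 2 ≤ 1 := pow_le_one₀ hb.le hb1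
  have hEy : E ≤ y := by nlinarith
  have h4 : E / b ^ 3 ≤ y / b := by
    rw [div_le_div_iff₀ (by positivity) hb]
    calc E * b ≤ y * b ^ 2 * b := by gcongr
      _ = y * b ^ 3 := by ring
  have h5 : y ≤ y / b := by
    rw [le_div_iff₀ hb]
    nlinarith
  have e1 : 4096 * E / b ^ 3 = 4096 * (E / b ^ 3) := by ring
  have e2 : 64 * y / b = 64 * (y / b) := by ring
  have e3 : 26000 * y / b = 26000 * (y / b) := by ring
  rw [e1, e2] at h1
  rw [e3]
  linarith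

open Classical in
/-- **The mean.** -/
theorem mean_le_of (hA : AdmP b κ ε E) (hR : 1 ≤ R) (h : HG b κ ε E T R L P) {r : ℝ} (hr : 0 < r)
    (hJ : ∀ δ : ℝ, 0 < δ → δ ≤ 1 / 4 → (((Z P).filter fun ρ => ‖(r : ℂ) - ρ‖ ≤ δ * r).card : ℝ) ≤ 4 * E + L * √r * δ ^ 2) :
    mean P r ≤ 73 * (L * √r) + 100 * E / b := by
  have hE := hA.hE
  have hb := hA.hb
  have hb1 := hA.hb1
  have h1 := (near_sums hA hR h hr hJ).2
  have h0 : mean P r ≤ ((Z P).map fun ρ => ‖p r ρ‖).sum := by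
    have h1 : mean P r ≤ ‖(mean P r : ℂ)‖ := by
      rw [Complex.norm_real]
      exact le_abs_self _
    rw [← mean_eq h.toNice hr] at h1
    refine h1.trans ?_
    have := norm_multiset_sum_le ((Z P).map fun ρ => p r ρ)
    rwa [Multiset.map_map] at this
  have h2 : ((Z P).map fun ρ => ‖p r ρ‖).sum ≤ ((Z P).map fun ρ => (if xr r ρ ≤ 1 / 4 then (1 / xr r ρ) ^ 1 else 0) + 9 * min 1 (r / ‖ρ‖)).sum :=
    Multiset.sum_map_le_sum_map _ _ fun ρ hρ => p_le hr hb (Z_ne_zero h.toNice hρ) (h.dist ρ hρ r hr)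
  rw [Multiset.sum_map_add, Multiset.sum_map_mul_left] at h2
  have h3 : ((Z P).map fun ρ => min 1 (r / ‖ρ‖)).sum ≤ 8 * (L * √r) + 3 * E := M_le h hR (by linarith) hr
  have h5 : E ≤ E / b := by
    rw [le_div_iff₀ hb]
    nlinarith
  have e1 : 64 * E / b = 64 * (E / b) := by ring
  have e2 : 100 * E / b = 100 * (E / b) := by ring
  rw [e1] at h1
  rw [e2]
  linarith

/-- the local form, each root at its own scale -/
theorem local_form8 (hA : AdmP b κ ε E) (hR : 1 ≤ R) (h : HG b κ ε E T R L P) {r : ℝ} (hr : 0 < r) {θ : ℝ} (hθ : |θ| ≤ b / 2) : ∃ w : ℂ,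
      ‖w‖ ≤ Gam P r * |θ| ^ 3 ∧
      aeval (pt r θ) P = ((P.eval r : ℝ) : ℂ) *
        Complex.exp (θ * mean P r * Complex.I - (θ : ℂ) ^ 2 / 2 * V P r + w) := by
  have hP := h.toNice
  have hb := hA.hb
  have hb1 := hA.hb1
  have hex : ∀ ρ : ℂ, ∃ f : ℂ, ‖p r ρ‖ ≤ 1 / b →
      (Complex.exp f = 1 + (Complex.exp (θ * Complex.I) - 1) * p r ρ ∧
      ‖f - θ * Complex.I * p r ρ + (θ : ℂ) ^ 2 / 2 * (p r ρ * (1 - p r ρ))‖ ≤ KK r ρ * |θ| ^ 3) := by
    intro ρ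
    by_cases hp : ‖p r ρ‖ ≤ 1 / b
    · have hB : 1 ≤ max 1 ‖p r ρ‖ := le_max_left _ _
      have hB2 : max 1 ‖p r ρ‖ ≤ 1 / b := by
        refine max_le ?_ hp
        rw [le_div_iff₀ hb]
        linarith
      obtain ⟨f, hf⟩ := Pool.Agent.Helper14.PC.log_exp' hB (le_max_right _ _) (θ := θ) (by
        refine hθ.trans ?_
        rw [div_le_div_iff₀ (by norm_num) (by positivity)]
        rw [le_div_iff₀ hb] at hB2
        linarith)
      exact ⟨f, fun _ => hf⟩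
    · exact ⟨0, fun h' => absurd h' hp⟩
  choose f hf using hex
  have hρ : ∀ ρ ∈ Z P, ‖p r ρ‖ ≤ 1 / b := fun ρ hρ => norm_p_le_inv hr hb (h.dist ρ hρ r hr)
  refine ⟨((Z P).map fun ρ => f ρ - θ * Complex.I * p r ρ +
    (θ : ℂ) ^ 2 / 2 * (p r ρ * (1 - p r ρ))).sum, ?_, ?_⟩
  · refine (norm_multiset_sum_le _).trans ?_
    rw [Multiset.map_map]
    have h1 : ((Z P).map ((fun x => ‖x‖) ∘ fun ρ => f ρ - θ * Complex.I * p r ρ +
        (θ : ℂ) ^ 2 / 2 * (p r ρ * (1 - p r ρ)))).sum ≤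
        ((Z P).map fun ρ => |θ| ^ 3 * KK r ρ).sum := by
      refine Multiset.sum_map_le_sum_map _ _ fun ρ hm => ?_
      have := (hf ρ (hρ ρ hm)).2
      simp only [Function.comp]
      linarith
    refine h1.trans (le_of_eq ?_)
    rw [Multiset.sum_map_mul_left, Gam]
    ring
  · have h2 : ((Z P).map fun ρ => 1 + (Complex.exp (θ * Complex.I) - 1) * p r ρ).prod =
        Complex.exp ((Z P).map f).sum := by
      rw [Complex.exp_multiset_sum, Multiset.map_map]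
      congr 1
      refine Multiset.map_congr rfl fun ρ hm => ?_
      simp only [Function.comp]
      exact ((hf ρ (hρ ρ hm)).1).symm
    rw [prod_formula hP θ hr, h2]
    congr 2
    have e1 := mean_eq hP hr
    have e2 := V_eq hP hr
    rw [← e1, ← e2, Multiset.sum_map_add, Multiset.sum_map_sub, Multiset.sum_map_mul_left,
      Multiset.sum_map_mul_left]
    ring

end Pool.Agent.Helper74.GP
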