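import Pool.Agent.Helper74.GP.Core2

/-!
# GPOLY core: the threshold `D * s ^ m' ≤ L`
-/

set_option autoImplicit false

namespace Pool.Agent.Helper74.GP

open Polynomial EVC Pool.Agent.Helper10.PC Pool.Agent.Helper2.PC

theorem log_pow_le {n : ℕ} (hn : 0 < n) {L : ℝ} (hL : 1 ≤ L) : Real.log L ^ n ≤ (n : ℝ) ^ n * L := by
  have hn0 : (0 : ℝ) < n := by exact_mod_cast hn
  have hL0 : 0 < L := by linarith
  have h0 : 0 ≤ Real.log L := Real.log_nonneg hL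
  have h1 := Real.add_one_le_exp (Real.log L / n)
  have h2 : Real.log L ≤ n * Real.exp (Real.log L / n) := by
    rw [← div_le_iff₀' hn0]
    linarith
  have h3 := pow_le_pow_left₀ h0 h2 n
  refine h3.trans (le_of_eq ?_)
  rw [mul_pow, ← Real.exp_nat_mul]
  congr 1
  rw [mul_div_cancel₀ _ hn0.ne', Real.exp_log hL0]

/-- **The threshold.** -/
theorem thr_log {n : ℕ} {s C D X L : ℝ} {m m' : ℕ} (hs : 1 ≤ s) (hX : 0 ≤ X)
    (hC : X ≤ C * s ^ m) (hD : (((n + 1 : ℕ) : ℝ) * C) ^ (n + 1) ≤ D ^ n) (hD0 : 0 ≤ D)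
    (hm : (n + 1) * m ≤ n * m') (hL : D * s ^ m' ≤ L) (hL1 : 1 ≤ L) :
    X * Real.log L ≤ L := by
  have hL0 : 0 < L := by linarith
  have hs0 : 0 < s := by linarith
  have h0 : 0 ≤ Real.log L := Real.log_nonneg hL1
  have h1 : (((n + 1 : ℕ) : ℝ) * X) ^ (n + 1) ≤ L ^ n := by
    calc (((n + 1 : ℕ) : ℝ) * X) ^ (n + 1) ≤ (((n + 1 : ℕ) : ℝ) * (C * s ^ m)) ^ (n + 1) := by
          gcongr
      _ = (((n + 1 : ℕ) : ℝ) * C) ^ (n + 1) * s ^ ((n + 1) * m) := by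
        rw [← mul_assoc, mul_pow, ← pow_mul, mul_comm m (n + 1)]
      _ ≤ D ^ n * s ^ (n * m') := by
        refine mul_le_mul hD (pow_le_pow_right₀ hs hm) (by positivity) (by positivity)
      _ = (D * s ^ m') ^ n := by
        rw [mul_pow, ← pow_mul, mul_comm m' n]
      _ ≤ L ^ n := by gcongr
  have h2 : (X * Real.log L) ^ (n + 1) ≤ L ^ (n + 1) := by
    calc (X * Real.log L) ^ (n + 1) = X ^ (n + 1) * Real.log L ^ (n + 1) := mul_pow _ _ _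
      _ ≤ X ^ (n + 1) * (((n + 1 : ℕ) : ℝ) ^ (n + 1) * L) :=
        mul_le_mul_of_nonneg_left (log_pow_le (Nat.succ_pos n) hL1) (by positivity)
      _ = (((n + 1 : ℕ) : ℝ) * X) ^ (n + 1) * L := by rw [mul_pow]; ring
      _ ≤ L ^ n * L := mul_le_mul_of_nonneg_right h1 hL0.le
      _ = L ^ (n + 1) := (pow_succ _ _).symm
  exact (pow_le_pow_iff_left₀ (by positivity) hL0.le (Nat.succ_ne_zero n)).1 h2

variable {b κ₀ ε T : ℝ} {L : ℕ} {P : ℝ[X]}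

/-- **The core with a polynomial threshold**: `E = e * log L`. -/
theorem core_thr {n : ℕ} {e s C D : ℝ} {m m' : ℕ} (h : AdmK b κ₀ ε (e * Real.log L) T)
    (hP : HK b κ₀ ε (e * Real.log L) T L P) (he : 0 ≤ e) (hs : 1 ≤ s)
    (hC : 10 ^ 47 * (e * T ^ 15) ≤ C * s ^ m * (κ₀ ^ 12 * b ^ 2 * √ε))
    (hD : (((n + 1 : ℕ) : ℝ) * C) ^ (n + 1) ≤ D ^ n) (hD0 : 0 ≤ D)
    (hm : (n + 1) * m ≤ n * m') (hL : D * s ^ m' ≤ L) (hL1 : 1 ≤ L)
    {k : ℕ} (hk : 1 ≤ k) : P.coeff (k - 1) * P.coeff (k + 1) ≤ P.coeff k ^ 2 := by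
  have hT := h.hT
  have hb := h.hb
  have hκ := h.hκ
  have hs' := Real.sqrt_pos.2 h.hε
  obtain ⟨q, hq⟩ : ∃ q, q = κ₀ ^ 12 * b ^ 2 * √ε := ⟨_, rfl⟩
  have hq0 : 0 < q := by rw [hq]; positivity
  rw [← hq] at hC
  have h1 := thr_log (X := 10 ^ 47 * (e * T ^ 15) / q) (L := L) hs (by positivity)
    (by rw [div_le_iff₀ hq0]; exact hC) hD hD0 hm hL (by exact_mod_cast hL1)
  refine coreK h hP ?_ hk
  rw [← hq]
  rw [div_mul_eq_mul_div, div_le_iff₀ hq0] at h1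
  calc 10 ^ 47 * (e * Real.log L * T ^ 15) = 10 ^ 47 * (e * T ^ 15) * Real.log L := by ring
    _ ≤ L * q := h1

/-- **Existence of a polynomial threshold** for any bound polynomial in `s`, with one logarithm. -/
theorem thr_exists (B : ℝ) (m : ℕ) : ∃ C a : ℕ, ∀ s L : ℕ, 1 ≤ s → 1 ≤ L → C * s ^ a ≤ L →
    ∀ X : ℝ, 0 ≤ X → X ≤ B * ((s : ℝ) + 1) ^ m → X * (1 + Real.log L) ≤ L := by
  obtain ⟨C₀, hC₀⟩ : ∃ C₀ : ℝ, C₀ = 2 * ((|B| + 1) * 2 ^ m) := ⟨_, rfl⟩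
  have hB := abs_nonneg B
  have h2m : (1 : ℝ) ≤ 2 ^ m := one_le_pow₀ (by norm_num)
  have hC1 : 1 ≤ C₀ := by
    rw [hC₀]
    nlinarith
  obtain ⟨D, hD⟩ := exists_nat_ge ((2 * C₀) ^ 2)
  refine ⟨D, 2 * m, fun s L hs hL hDL X hX hXB => ?_⟩
  have hs' : (1 : ℝ) ≤ s := by exact_mod_cast hs
  have hL' : (1 : ℝ) ≤ L := by exact_mod_cast hL
  have hDL' : (D : ℝ) * (s : ℝ) ^ (2 * m) ≤ L := by exact_mod_cast hDL
  have h1 : 2 * X ≤ C₀ * (s : ℝ) ^ m := by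
    have h2 : ((s : ℝ) + 1) ^ m ≤ 2 ^ m * (s : ℝ) ^ m := by
      rw [← mul_pow]
      gcongr
      linarith
    have h3 : X ≤ (|B| + 1) * (2 ^ m * (s : ℝ) ^ m) := by
      refine hXB.trans ?_
      have h4 : (0 : ℝ) ≤ ((s : ℝ) + 1) ^ m := by positivity
      calc B * ((s : ℝ) + 1) ^ m ≤ (|B| + 1) * ((s : ℝ) + 1) ^ m :=
            mul_le_mul_of_nonneg_right (by linarith [le_abs_self B]) h4
        _ ≤ _ := mul_le_mul_of_nonneg_left h2 (by positivity)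
    rw [hC₀]
    linarith
  have h5 := thr_log (n := 1) (X := 2 * X) (C := C₀) (D := D) (m := m) (m' := 2 * m) hs' (by linarith) h1
    (by norm_num; exact hD) (Nat.cast_nonneg D) (by omega) hDL' hL'
  have h6 : 2 * X ≤ L := by
    refine h1.trans (le_trans ?_ hDL')
    have h7 : (s : ℝ) ^ m ≤ (s : ℝ) ^ (2 * m) := pow_le_pow_right₀ hs' (by omega)
    have h8 : C₀ ≤ D := by nlinarith
    exact mul_le_mul h8 h7 (by positivity) (Nat.cast_nonneg D)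
  nlinarith

end Pool.Agent.Helper74.GP
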