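import Pool.Agent.Helper74.GP.Bulk
import Pool.Agent.Helper74.GP.Jensen
import Pool.Agent.Helper74.EV4.TopEnd

/-!
# GPOLY core: the top coefficients and the mean at the largest radius
-/

set_option autoImplicit false

namespace Pool.Agent.Helper74.GP

open Polynomial EVC Pool.Agent.Helper10.PC Pool.Agent.Helper2.PC

variable {b κ ε E T R : ℝ} {L : ℕ} {P : ℝ[X]}

/-- the constant of the top range -/
noncomputable def cc (κ R : ℝ) : ℝ := κ * (R * √R) / 5

theorem cc_sq {κ R : ℝ} (hR : 0 ≤ R) : 25 * cc κ R ^ 2 = κ ^ 2 * R ^ 3 := by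
  have h1 : √R ^ 2 = R := Real.sq_sqrt hR
  unfold cc
  calc 25 * (κ * (R * √R) / 5) ^ 2 = κ ^ 2 * R ^ 2 * √R ^ 2 := by ring
    _ = κ ^ 2 * R ^ 3 := by rw [h1]; ring

theorem cc_pos {κ R : ℝ} (hκ : 0 < κ) (hR : 0 < R) : 0 < cc κ R := by
  unfold cc
  have := Real.sqrt_pos.2 hR
  positivity

theorem cc_le_one {κ T R : ℝ} (hκ : 0 < κ) (hG : AdmG κ T R) : cc κ R ≤ 1 := by
  have hR := hG.hR
  have h1 := cc_sq (κ := κ) (R := R) (by linarith)
  have h2 := hG.hκ1
  have h3 := cc_pos (κ := κ) (R := R) hκ (by linarith)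
  nlinarith

/-- the main inequality between the constants -/
theorem cc_main {κ T R : ℝ} (hG : AdmG κ T R) : 32 * T ^ 3 ≤ cc κ R ^ 2 * (R - T) := by
  have hR := hG.hR
  have h1 := cc_sq (κ := κ) (R := R) (by linarith)
  have h2 := hG.hκR
  rw [← h1] at h2
  linarith

theorem card_Z' (P : ℝ[X]) : Multiset.card (Z P) = P.natDegree := by
  unfold Z
  rw [splits_iff_card_roots.1 (IsAlgClosed.splits _), natDegree_map_eq_of_injective (algebraMap ℝ ℂ).injective]

/-- **The second coefficient from the top is linear.** -/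
theorem sum_neg_ge (hA : AdmP b κ ε E) (hG : AdmG κ T R) (h : HG b κ ε E T R L P)
    (hV : κ / 5 * (L * √R) ≤ V P R) : cc κ R / 2 * L ≤ ((Z P).map fun ρ => (-ρ).re).sum := by
  have hT := hG.hT
  have hR := hG.hR
  have hTR := hG.hTR
  have hκ := hA.hκ
  have hR0 : 0 < R := by linarith
  have hL0 : (0 : ℝ) ≤ L := Nat.cast_nonneg L
  have e1 : V P R = ((Z P).map fun ρ => (p R ρ * (1 - p R ρ)).re).sum := by
    unfold V
    exact re_sum_map _ _
  have h1 : ∀ ρ ∈ Z P, R * (p R ρ * (1 - p R ρ)).re ≤ (-ρ).re + 10 * T ^ 2 / R := by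
    intro ρ hρ
    have h2 := EV4.top_root hT (r := R) (by linarith) (h.far ρ hρ)
    have h3 := (le_abs_self _).trans ((Complex.abs_re_le_norm _).trans h2)
    rw [Complex.sub_re, Complex.re_ofReal_mul] at h3
    linarith
  have h2 := Multiset.sum_map_le_sum_map _ _ h1
  rw [Multiset.sum_map_mul_left, Multiset.sum_map_add, Multiset.map_const', Multiset.sum_replicate, nsmul_eq_mul,
    ← e1] at h2
  have h3 := Pool.Agent.Helper10.PC.card_Z_le h.toNice
  have h4 : (Multiset.card (Z P) : ℝ) * (10 * T ^ 2 / R) ≤ (L : ℝ) / 2 * (10 * T ^ 2 / R) :=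
    mul_le_mul_of_nonneg_right (by linarith) (by positivity)
  have h5 : R * (κ / 5 * (L * √R)) ≤ R * V P R := mul_le_mul_of_nonneg_left hV hR0.le
  have h6 : R * (κ / 5 * (L * √R)) = cc κ R * L := by
    unfold cc
    ring
  -- `5 T² / R ≤ cc / 2`
  have h7 : 10 * T ^ 2 / R ≤ cc κ R := by
    have hc := cc_pos (κ := κ) (R := R) hκ hR0
    have hm := cc_main hG
    rw [div_le_iff₀ hR0]
    have h8 : (10 * T ^ 2) ^ 2 ≤ (cc κ R * R) ^ 2 := by
      have h9 : cc κ R ^ 2 * (R - T) ≤ cc κ R ^ 2 * R :=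
        mul_le_mul_of_nonneg_left (by linarith) (by positivity)
      have h10 : 32 * T ^ 3 * R ≤ cc κ R ^ 2 * R * R := mul_le_mul_of_nonneg_right (hm.trans h9) hR0.le
      have h11 : 32 * T ^ 3 * (4 * T) ≤ 32 * T ^ 3 * R := mul_le_mul_of_nonneg_left hTR (by positivity)
      have h12 : 0 ≤ T ^ 4 := by positivity
      calc (10 * T ^ 2) ^ 2 = 100 * T ^ 4 := by ring
        _ ≤ 32 * T ^ 3 * (4 * T) := by nlinarith
        _ ≤ _ := h11.trans h10
        _ = (cc κ R * R) ^ 2 := by ring
    exact (pow_le_pow_iff_left₀ (by positivity) (by positivity) two_ne_zero).1 h8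
  have h8 : (L : ℝ) / 2 * (10 * T ^ 2 / R) ≤ L / 2 * cc κ R := mul_le_mul_of_nonneg_left h7 (by positivity)
  rw [h6] at h5
  linarith

/-- **Top coefficients.** -/
theorem top (hA : AdmP b κ ε E) (hG : AdmG κ T R) (h : HG b κ ε E T R L P)
    (hV : κ / 5 * (L * √R) ≤ V P R) (k : ℕ)
    (hk : (P.natDegree : ℝ) ≤ k + cc κ R ^ 2 / (32 * T ^ 2) * P.natDegree) :
    P.coeff (k - 1) * P.coeff (k + 1) ≤ P.coeff k ^ 2 := by
  have hT := hG.hT
  have hR := hG.hR
  have hκ := hA.hκ
  have h1 := sum_neg_ge hA hG h hV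
  have hc := cc_pos (κ := κ) (R := R) hκ (by linarith)
  have h0 : P ≠ 0 := by
    rintro rfl
    have := h.one
    simp at this
    linarith
  have hlead : 0 < P.leadingCoeff := lt_of_le_of_ne (h.nn _) (Ne.symm (leadingCoeff_ne_zero.2 h0))
  have hdeg : 2 * (P.natDegree : ℝ) ≤ L := by exact_mod_cast h.deg
  rcases Nat.eq_zero_or_pos P.natDegree with hd | hd
  · rw [hd]at hk
    rw [P.coeff_eq_zero_of_natDegree_lt (by omega : P.natDegree < k + 1), mul_zero]
    positivity
  have h3 := Pool.Agent.Helper74.EV2.second_coeff (P := P) hd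
  have h4 : P.coeff (P.natDegree - 1) = P.leadingCoeff * ((Z P).map fun ρ => (-ρ).re).sum := by
    have h5 := congrArg Complex.re h3
    rw [Complex.ofReal_re, Complex.neg_re, Complex.re_ofReal_mul] at h5
    have h6 : ((Pool.Agent.Helper74.EV2.rts P).sum).re = -((Z P).map fun ρ => (-ρ).re).sum := by
      have h7 := re_sum_map (Z P) (fun ρ => ρ)
      rw [Multiset.map_id'] at h7
      have h8 : ((Z P).map fun ρ => (-ρ).re) = ((Z P).map fun ρ => -(ρ.re)) := by
        refine Multiset.map_congr rfl fun ρ _ => ?_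
        rw [Complex.neg_re]
      have h9 : ∀ s : Multiset ℂ, (s.map fun ρ => -(ρ.re)).sum = -(s.map fun ρ => ρ.re).sum := by
        intro s
        induction s using Multiset.induction_on with
        | empty => simp
        | cons a s ih =>
          rw [Multiset.map_cons, Multiset.sum_cons, ih, Multiset.map_cons, Multiset.sum_cons, neg_add]
      rw [h8, h9, neg_neg]
      exact h7
    rw [h5, h6]
    ring
  refine Pool.Agent.Helper74.EV2.top_of_roots (T := T) (c := cc κ R) hT hc (cc_le_one hκ hG) P hlead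
    (fun z hz => h.far z hz) ?_ k hk
  rw [h4]
  calc cc κ R * P.natDegree * P.leadingCoeff = P.leadingCoeff * (cc κ R * P.natDegree) := by ring
    _ ≤ P.leadingCoeff * (cc κ R / 2 * L) := by
      refine mul_le_mul_of_nonneg_left ?_ hlead.le
      nlinarith
    _ ≤ _ := mul_le_mul_of_nonneg_left h1 hlead.le

/-- the mean at the largest radius -/
theorem mean_R (hA : AdmP b κ ε E) (hG : AdmG κ T R) (h : HG b κ ε E T R L P) :
    (P.natDegree : ℝ) - cc κ R ^ 2 / (32 * T ^ 2) * P.natDegree ≤ mean P R := by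
  have hT := hG.hT
  have hR := hG.hR
  have hTR := hG.hTR
  have hR0 : 0 < R := by linarith
  have h1 := mean_eq h.toNice (r := R) hR0
  have hRT : 0 < R - T := by linarith
  have h2 : ∀ s : Multiset ℂ, (∀ ρ ∈ s, ‖ρ‖ ≤ T) →
      (s.card : ℝ) * (1 - T / (R - T)) ≤ (s.map fun ρ => p R ρ).sum.re := by
    intro s
    induction s using Multiset.induction_on with
    | empty => simp
    | cons a s ih =>
      intro hs
      rw [Multiset.map_cons, Multiset.sum_cons, Complex.add_re, Multiset.card_cons]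
      have h3 := ih fun ρ hρ => hs ρ (Multiset.mem_cons_of_mem hρ)
      have h4 := hs a (Multiset.mem_cons_self _ _)
      have h5 : R - T ≤ ‖(R : ℂ) - a‖ := by
        have : ‖(R : ℂ)‖ - ‖a‖ ≤ ‖(R : ℂ) - a‖ := norm_sub_norm_le _ _
        rw [Complex.norm_real, Real.norm_of_nonneg hR0.le] at this
        linarith
      have hpos : 0 < ‖(R : ℂ) - a‖ := by linarith
      have hne : (R : ℂ) - a ≠ 0 := norm_pos_iff.1 hpos
      have h6 : p R a = 1 - -(a / ((R : ℂ) - a)) := by
        unfold p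
        field_simp
        ring
      have h7 : ‖-(a / ((R : ℂ) - a))‖ ≤ T / (R - T) := by
        rw [norm_neg, norm_div, div_le_div_iff₀ hpos hRT]
        exact mul_le_mul h4 h5 hRT.le (by linarith)
      have h8 : 1 - T / (R - T) ≤ (p R a).re := by
        rw [h6, Complex.sub_re, Complex.one_re]
        have := (Complex.re_le_norm (-(a / ((R : ℂ) - a)))).trans h7
        linarith
      push_cast
      linarith
  have h3 := h2 (Z P) h.far
  rw [h1, Complex.ofReal_re, card_Z'] at h3
  have h4 : T / (R - T) ≤ cc κ R ^ 2 / (32 * T ^ 2) := by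
    rw [div_le_div_iff₀ hRT (by positivity)]
    have := cc_main hG
    nlinarith
  have h5 : (P.natDegree : ℝ) * (T / (R - T)) ≤ P.natDegree * (cc κ R ^ 2 / (32 * T ^ 2)) :=
    mul_le_mul_of_nonneg_left h4 (Nat.cast_nonneg _)
  linarith

end Pool.Agent.Helper74.GP
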